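import Pool.Agent.Helper43_LSA.Stmts

/-!
# Module HITP: the probabilities that a given set is hit
-/

namespace Helper72.LSA

open Helper43.LSA

noncomputable section

theorem hitP_zero (n s : ℕ) : hitP n 0 s = if s = 0 then 1 else 0 := rfl

theorem hitP_succ (n M s : ℕ) :
    hitP n (M + 1) s = (s / n : ℝ) * hitP n M (s - 1) + (1 - s / n) * hitP n M s := rfl

theorem hitP_zero_right (n M : ℕ) : hitP n M 0 = 1 := by
  induction M with
  | zero => simp [hitP_zero]
  | succ M ih => rw [hitP_succ]; simp [ih]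

theorem ratio_nonneg (n s : ℕ) : (0 : ℝ) ≤ (s : ℝ) / n := by positivity

theorem ratio_le_one {n s : ℕ} (h : s ≤ n) : (s : ℝ) / n ≤ 1 :=
  div_le_one_of_le₀ (by exact_mod_cast h) (by positivity)

theorem hitP_nonneg (n M : ℕ) : ∀ s : ℕ, s ≤ n → 0 ≤ hitP n M s := by
  induction M with
  | zero => intro s _; rw [hitP_zero]; split <;> norm_num
  | succ M ih =>
    intro s hs
    rw [hitP_succ]
    have h1 := ih s hs
    have h2 := ih (s - 1) (by omega)
    have h3 := ratio_nonneg n s
    have h4 := ratio_le_one hs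
    have h5 : 0 ≤ 1 - (s : ℝ) / n := by linarith
    positivity

theorem hitP_anti (n M : ℕ) : ∀ s : ℕ, s + 1 ≤ n → hitP n M (s + 1) ≤ hitP n M s := by
  induction M with
  | zero =>
    intro s _
    rw [hitP_zero, hitP_zero, if_neg (Nat.succ_ne_zero s)]
    split <;> norm_num
  | succ M ih =>
    intro s hs
    have h1 : hitP n (M + 1) (s + 1) ≤ hitP n M s := by
      rw [hitP_succ, Nat.add_sub_cancel]
      have h2 := ih s hs
      have h3 := ratio_le_one hs
      have h5 : 0 ≤ 1 - ((s + 1 : ℕ) : ℝ) / n := by linarith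
      nlinarith
    have h2 : hitP n M s ≤ hitP n (M + 1) s := by
      rw [hitP_succ]
      rcases Nat.eq_zero_or_pos s with rfl | hpos
      · simp
      · have h3 := ih (s - 1) (by omega)
        rw [Nat.sub_add_cancel hpos] at h3
        have h4 := ratio_nonneg n s
        nlinarith
    exact h1.trans h2

theorem hitP_anti' (n M s : ℕ) (hs : s ≤ n) :
    0 ≤ (s : ℝ) / n * (hitP n M (s - 1) - hitP n M s) := by
  rcases Nat.eq_zero_or_pos s with rfl | hpos
  · simp
  · have h3 := hitP_anti n M (s - 1) (by omega)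
    rw [Nat.sub_add_cancel hpos] at h3
    have h4 := ratio_nonneg n s
    exact mul_nonneg h4 (by linarith)

theorem hitP_neg_corr (n M : ℕ) : ∀ s t : ℕ, s + t ≤ n →
    hitP n M (s + t) ≤ hitP n M s * hitP n M t := by
  induction M with
  | zero =>
    intro s t _
    rw [hitP_zero, hitP_zero, hitP_zero]
    by_cases hs : s = 0 <;> by_cases ht : t = 0 <;> simp [hs, ht]
  | succ M ih =>
    intro s t hst
    have hs := hitP_anti' n M s (by omega)
    have ht := hitP_anti' n M t (by omega)
    have hprod := mul_nonneg hs ht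
    have h0 := ih s t hst
    have h1 : (s : ℝ) / n * hitP n M (s + t - 1) ≤ (s : ℝ) / n * (hitP n M (s - 1) * hitP n M t) := by
      rcases Nat.eq_zero_or_pos s with rfl | hpos
      · simp
      · refine mul_le_mul_of_nonneg_left ?_ (ratio_nonneg n s)
        have := ih (s - 1) t (by omega)
        rwa [show s - 1 + t = s + t - 1 by omega] at this
    have h2 : (t : ℝ) / n * hitP n M (s + t - 1) ≤ (t : ℝ) / n * (hitP n M s * hitP n M (t - 1)) := by
      rcases Nat.eq_zero_or_pos t with rfl | hpos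
      · simp
      · refine mul_le_mul_of_nonneg_left ?_ (ratio_nonneg n t)
        have := ih s (t - 1) (by omega)
        rwa [show s + (t - 1) = s + t - 1 by omega] at this
    have h3 : (1 - ((s + t : ℕ) : ℝ) / n) * hitP n M (s + t) ≤
        (1 - ((s + t : ℕ) : ℝ) / n) * (hitP n M s * hitP n M t) := by
      refine mul_le_mul_of_nonneg_left h0 ?_
      have := ratio_le_one hst
      linarith
    rw [hitP_succ, hitP_succ, hitP_succ]
    have hcast : ((s + t : ℕ) : ℝ) / n = (s : ℝ) / n + (t : ℝ) / n := by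
      push_cast; ring
    rw [hcast] at h3 ⊢
    nlinarith

theorem hitP_lower_aux (n M : ℕ) : ∀ s : ℕ, s ≤ n →
    (M.descFactorial s : ℝ) / (n : ℝ) ^ s * (1 - s / n) ^ (M - s) ≤ hitP n M s := by
  induction M with
  | zero =>
    intro s _
    rw [hitP_zero]
    rcases Nat.eq_zero_or_pos s with rfl | hpos
    · simp
    · rw [Nat.descFactorial_of_lt hpos]
      simp
      split <;> norm_num
  | succ M ih =>
    intro s hs
    rw [hitP_succ]
    rcases Nat.eq_zero_or_pos s with rfl | hpos
    · simp [hitP_zero_right]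
    obtain ⟨r, rfl⟩ : ∃ r, s = r + 1 := ⟨s - 1, by omega⟩
    rw [Nat.add_sub_cancel]
    by_cases hM : M + 1 < r + 1
    · rw [Nat.descFactorial_of_lt hM]
      have h1 := hitP_nonneg n M (r + 1) hs
      have h2 := hitP_nonneg n M r (by omega)
      have h3 := ratio_le_one hs
      have h5 : 0 ≤ 1 - ((r + 1 : ℕ) : ℝ) / n := by linarith
      have h4 := ratio_nonneg n (r + 1)
      have := add_nonneg (mul_nonneg h4 h2) (mul_nonneg h5 h1)
      simpa using this
    have hM' : r ≤ M := by omega
    have hn : (0 : ℝ) < n := by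
      have : 0 < n := by omega
      exact_mod_cast this
    have h1 := ih r (by omega)
    have h2 := ih (r + 1) hs
    set x : ℝ := 1 - ((r + 1 : ℕ) : ℝ) / n with hx
    have hx0 : 0 ≤ x := by
      have := ratio_le_one hs
      linarith
    have hxy : x ≤ 1 - (r : ℝ) / n := by
      rw [hx]
      have : (r : ℝ) / n ≤ ((r + 1 : ℕ) : ℝ) / n := by
        gcongr
        exact Nat.le_succ r
      linarith
    have e1 : ((r + 1 : ℕ) : ℝ) / n * ((M.descFactorial r : ℝ) / (n : ℝ) ^ r * x ^ (M - r)) ≤
        ((r + 1 : ℕ) : ℝ) / n * hitP n M r := by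
      refine mul_le_mul_of_nonneg_left (le_trans ?_ h1) (by positivity)
      gcongr
    have e2 : x * ((M.descFactorial (r + 1) : ℝ) / (n : ℝ) ^ (r + 1) * x ^ (M - (r + 1))) ≤
        x * hitP n M (r + 1) := mul_le_mul_of_nonneg_left h2 hx0
    refine le_trans (le_of_eq ?_) (add_le_add e1 e2)
    rw [show M + 1 - (r + 1) = M - r by omega]
    have hdesc : ((M + 1).descFactorial (r + 1) : ℝ) =
        (M.descFactorial (r + 1) : ℝ) + (r + 1) * (M.descFactorial r : ℝ) := by
      rw [Nat.succ_descFactorial_succ, Nat.descFactorial_succ]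
      push_cast [Nat.cast_sub hM']
      ring
    rw [hdesc]
    rcases Nat.lt_or_ge r M with hlt | hge
    · rw [show M - r = (M - (r + 1)) + 1 by omega, pow_succ x]
      field_simp
      push_cast
      ring
    · have : r = M := by omega
      subst this
      have h0 : (r.descFactorial (r + 1) : ℝ) = 0 := by
        rw [Nat.descFactorial_of_lt (Nat.lt_succ_self r)]; simp
      rw [h0]
      simp
      field_simp
      ring

theorem hitP_lower (n M s L : ℕ) (hn : 1 ≤ n) (hL : 1 ≤ L) (h1 : n ≤ 2 * L * M) (h2 : 2 * s ≤ M)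
    (h3 : M ≤ n) : (1 / (4 * Real.exp 2 * L)) ^ s ≤ hitP n M s := by
  have hn' : (0 : ℝ) < n := by exact_mod_cast hn
  have hL' : (0 : ℝ) < L := by exact_mod_cast hL
  refine le_trans ?_ (hitP_lower_aux n M s (by omega))
  have hx : (s : ℝ) / n ≤ 1 / 2 := by
    rw [div_le_iff₀ hn']
    have : ((2 * s : ℕ) : ℝ) ≤ n := by exact_mod_cast h2.trans h3
    push_cast at this
    linarith
  have hx0 : (0 : ℝ) ≤ s / n := by positivity
  -- `1 - x ≥ exp (-2x)`
  have hexp : Real.exp (-(2 * ((s : ℝ) / n))) ≤ 1 - s / n := by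
    set x : ℝ := (s : ℝ) / n with hxdef
    have hx1 : 0 < 1 - x := by linarith
    have h5 := Real.add_one_le_exp (x / (1 - x))
    have h6 : x / (1 - x) + 1 = (1 - x)⁻¹ := by field_simp; ring
    rw [h6] at h5
    have h7 : x / (1 - x) ≤ 2 * x := by
      rw [div_le_iff₀ hx1]
      nlinarith
    have h8 : (1 - x)⁻¹ ≤ Real.exp (2 * x) := h5.trans (Real.exp_le_exp.2 h7)
    rw [Real.exp_neg]
    exact (inv_le_comm₀ (Real.exp_pos _) hx1).2 h8
  have hpow : Real.exp (-(2 * (s : ℝ))) ≤ (1 - s / n) ^ (M - s) := by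
    calc Real.exp (-(2 * (s : ℝ))) ≤ Real.exp (-(2 * ((s : ℝ) / n)) * ((M - s : ℕ) : ℝ)) := by
          apply Real.exp_le_exp.2
          have h9 : ((M - s : ℕ) : ℝ) ≤ n := by
            have : M - s ≤ n := by omega
            exact_mod_cast this
          have h10 : (s : ℝ) / n * ((M - s : ℕ) : ℝ) ≤ s := by
            rw [div_mul_eq_mul_div, div_le_iff₀ hn']
            gcongr
          nlinarith
      _ = (Real.exp (-(2 * ((s : ℝ) / n)))) ^ (M - s) := by
          rw [← Real.exp_nat_mul]; ring_nf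
      _ ≤ (1 - s / n) ^ (M - s) := by
          gcongr
  have hdesc : ((1 : ℝ) / (4 * L)) ^ s ≤ (M.descFactorial s : ℝ) / (n : ℝ) ^ s := by
    have hd : ((M + 1 - s : ℕ) ^ s : ℕ) ≤ M.descFactorial s := Nat.pow_sub_le_descFactorial M s
    have hd' : (((M + 1 - s : ℕ) : ℝ)) ^ s ≤ (M.descFactorial s : ℝ) := by exact_mod_cast hd
    have hbase : (1 : ℝ) / (4 * L) ≤ ((M + 1 - s : ℕ) : ℝ) / n := by
      rw [div_le_div_iff₀ (by positivity) hn']
      have h11 : n ≤ (M + 1 - s) * (4 * L) := by
        have : M ≤ 2 * (M + 1 - s) := by omega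
        calc n ≤ 2 * L * M := h1
          _ ≤ 2 * L * (2 * (M + 1 - s)) := Nat.mul_le_mul_left _ this
          _ = (M + 1 - s) * (4 * L) := by ring
      have : ((n : ℕ) : ℝ) ≤ (((M + 1 - s) * (4 * L) : ℕ) : ℝ) := by exact_mod_cast h11
      push_cast at this
      simpa using this
    calc ((1 : ℝ) / (4 * L)) ^ s ≤ (((M + 1 - s : ℕ) : ℝ) / n) ^ s := by gcongr
      _ = ((M + 1 - s : ℕ) : ℝ) ^ s / (n : ℝ) ^ s := by rw [div_pow]
      _ ≤ (M.descFactorial s : ℝ) / (n : ℝ) ^ s := by gcongr
  calc (1 / (4 * Real.exp 2 * L)) ^ s = ((1 : ℝ) / (4 * L)) ^ s * Real.exp (-(2 * (s : ℝ))) := by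
        have : Real.exp (-(2 * (s : ℝ))) = (Real.exp 2)⁻¹ ^ s := by
          rw [← Real.exp_neg, ← Real.exp_nat_mul]; ring_nf
        rw [this, ← mul_pow]
        congr 1
        field_simp
    _ ≤ (M.descFactorial s : ℝ) / (n : ℝ) ^ s * (1 - s / n) ^ (M - s) := by
        gcongr

theorem hitp : HitpStmt where
  nonneg := fun n M s h => hitP_nonneg n M s h
  le_one := by
    intro n M s
    induction M generalizing s with
    | zero => intro _; rw [hitP_zero]; split <;> norm_num
    | succ M ih =>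
      intro hs
      rw [hitP_succ]
      have h1 := ih s hs
      have h2 := ih (s - 1) (by omega)
      have h3 := ratio_nonneg n s
      have h4 := ratio_le_one hs
      nlinarith
  anti := fun n M s h => hitP_anti n M s h
  neg_corr := fun n M s t h => hitP_neg_corr n M s t h
  lower := hitP_lower

end

end Helper72.LSA
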