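import Pool.Agent.Helper72_LSA.Xlo

/-!
# Module TLO: the lower bound for the cover time
-/

namespace Helper72.LSA

open Helper43.LSA
open Classical
open scoped ENNReal

noncomputable section

/-! ### Numbers -/

theorem exp_le_one_sub {x : ℝ} (hx0 : 0 ≤ x) (hx : x ≤ 1 / 2) : Real.exp (-(2 * x)) ≤ 1 - x := by
  have hx1 : 0 < 1 - x := by linarith
  have h5 := Real.add_one_le_exp (x / (1 - x))
  have h6 : x / (1 - x) + 1 = (1 - x)⁻¹ := by field_simp; ring
  rw [h6] at h5
  have h7 : x / (1 - x) ≤ 2 * x := by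
    rw [div_le_iff₀ hx1]
    nlinarith
  have h8 : (1 - x)⁻¹ ≤ Real.exp (2 * x) := h5.trans (Real.exp_le_exp.2 h7)
  rw [Real.exp_neg]
  exact (inv_le_comm₀ (Real.exp_pos _) hx1).2 h8

/-- the constant `144 * 2 ^ 80` -/
def AA : ℕ := 2 ^ 80

theorem AA_pos : 0 < AA := by unfold AA; positivity

/-- the error term -/
def etaT (n : ℕ) : ℝ :=
  4 * Real.log n ^ 2 * Real.exp (-(3 / 4 * Real.log n)) + 2 * (8 / Real.log n) ^ (1 / 9 : ℝ)

theorem tendsto_etaT : Filter.Tendsto etaT Filter.atTop (nhds 0) := by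
  have hlog : Filter.Tendsto (fun n : ℕ => Real.log n) Filter.atTop Filter.atTop :=
    Real.tendsto_log_atTop.comp tendsto_natCast_atTop_atTop
  have h1 : Filter.Tendsto (fun n : ℕ => 3 / 4 * Real.log n) Filter.atTop Filter.atTop :=
    hlog.const_mul_atTop (by norm_num)
  have h2 := (Real.tendsto_pow_mul_exp_neg_atTop_nhds_zero 2).comp h1
  have h3 := h2.const_mul (64 / 9 : ℝ)
  rw [mul_zero] at h3
  have h4 : Filter.Tendsto (fun n : ℕ => 8 / Real.log n) Filter.atTop (nhds 0) :=
    hlog.const_div_atTop 8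
  have h5 : Filter.Tendsto (fun n : ℕ => (8 / Real.log n) ^ (1 / 9 : ℝ)) Filter.atTop (nhds 0) := by
    have := h4.rpow_const (p := (1 / 9 : ℝ)) (Or.inr (by norm_num))
    rwa [Real.zero_rpow (by norm_num)] at this
  have h6 := h3.add (h5.const_mul 2)
  rw [mul_zero, add_zero] at h6
  refine h6.congr fun n => ?_
  unfold etaT
  simp only [Function.comp_apply]
  ring

theorem rpow_bound {x t : ℝ} (hx : 0 < x) (ht : 0 < t) (h : x ≤ 8 * t ^ 9) :
    t⁻¹ ≤ (8 / x) ^ (1 / 9 : ℝ) := by
  have h1 : (t⁻¹) ^ 9 ≤ 8 / x := by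
    rw [inv_pow, inv_le_comm₀ (by positivity) (by positivity)]
    rw [inv_div]
    rw [div_le_iff₀ (by norm_num)]
    linarith
  calc t⁻¹ = ((t⁻¹) ^ 9) ^ (1 / 9 : ℝ) := by
        rw [← Real.rpow_natCast, ← Real.rpow_mul (by positivity)]
        norm_num
    _ ≤ (8 / x) ^ (1 / 9 : ℝ) := Real.rpow_le_rpow (by positivity) h1 (by norm_num)

/-! ### Loads and births -/

section

variable {V : Type} [Fintype V]

theorem sum_bump (X : V → ℕ) (w : V) : ∑ v, bump X w v = ∑ v, X v + 1 := by
  have h : ∀ v, bump X w v = X v + if v = w then 1 else 0 := by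
    intro v
    rw [bump_apply]
    by_cases h : v = w
    · subst h; simp
    · simp [h]
  simp_rw [h]
  rw [Finset.sum_add_distrib]
  simp

theorem sum_runL {G : SimpleGraph V} {l : List V} : ∀ {X X' : V → ℕ},
    X' ∈ (runL G l X).support → ∑ v, X' v = ∑ v, X v + l.length := by
  induction l with
  | nil => intro X X' h; rw [mem_support_runL_nil] at h; rw [h]; simp
  | cons u l ih =>
    intro X X' h
    obtain ⟨w, _, h2⟩ := mem_support_runL_cons.1 h
    rw [ih h2, sum_bump, List.length_cons]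
    ring

theorem sum_chain (hI : IidStmt) {G : SimpleGraph V} {q : PMF V} {m : ℕ} {X : V → ℕ}
    (h : X ∈ (chain G q m 0).support) : ∑ v, X v = m := by
  rw [hI.chain_eq, PMF.mem_support_bind_iff] at h
  obtain ⟨l, hl, hX⟩ := h
  rw [sum_runL hX, hI.length V q m l hl]
  simp

omit [Fintype V] in
theorem mem_iid_support {q : PMF V} {m : ℕ} : ∀ {l : List V}, l ∈ (iid q m).support →
    ∀ u ∈ l, u ∈ q.support := by
  induction m with
  | zero =>
    intro l hl u hu
    simp only [iid, PMF.support_pure, Set.mem_singleton_iff] at hl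
    subst hl
    simp at hu
  | succ m ih =>
    intro l hl u hu
    simp only [iid] at hl
    rw [PMF.mem_support_bind_iff] at hl
    obtain ⟨v, hv, hl⟩ := hl
    rw [PMF.mem_support_map_iff] at hl
    obtain ⟨l', hl', rfl⟩ := hl
    rcases List.mem_cons.1 hu with h | h
    · rw [h]; exact hv
    · exact ih hl' u h

/-- the joint law of births and loads -/
def joint (G : SimpleGraph V) (q : PMF V) (m : ℕ) : PMF (List V × (V → ℕ)) :=
  (iid q m).bind fun l => (runL G l 0).map fun X => (l, X)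

theorem ex_joint (G : SimpleGraph V) (q : PMF V) (m : ℕ) (f : List V × (V → ℕ) → ℝ≥0∞) :
    ex (joint G q m) f = ex (iid q m) fun l => ex (runL G l 0) fun X => f (l, X) := by
  unfold joint
  rw [ex_bind]
  simp_rw [ex_map]

theorem pr_joint_fst (G : SimpleGraph V) (q : PMF V) (m : ℕ) (S : List V → Prop) :
    pr (joint G q m) (fun a => S a.1) = pr (iid q m) S := by
  rw [pr_eq, pr_eq, ex_joint]
  refine congrArg _ (funext fun l => ?_)
  by_cases hl : S l
  · simp [hl, ex_const]
  · simp [hl, ex_const]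

theorem pr_joint_snd (hI : IidStmt) (G : SimpleGraph V) (q : PMF V) (m : ℕ)
    (S : (V → ℕ) → Prop) :
    pr (joint G q m) (fun a => S a.2) = pr (chain G q m 0) S := by
  rw [pr_eq, pr_eq, ex_joint, hI.chain_eq, ex_bind]

theorem chain_cover_small (hI : IidStmt) [Nonempty V] (G : SimpleGraph V) (m : ℕ)
    (hm : m < Fintype.card V) : pr (chain G (unif V) m 0) (fun X => ∀ v, 1 ≤ X v) = 0 := by
  have h1 : pr (chain G (unif V) m 0) (fun X => ∀ v, 1 ≤ X v) ≤
      ex (chain G (unif V) m 0) (fun _ => 0) := by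
    unfold pr
    refine ex_mono _ fun X hX => ?_
    rw [if_neg]
    intro hall
    have h2 := sum_chain hI hX
    have h3 : ∑ _v : V, 1 ≤ ∑ v, X v := Finset.sum_le_sum fun v _ => hall v
    rw [h2] at h3
    simp at h3
    omega
  rw [ex_const] at h1
  exact le_antisymm h1 zero_le

end

/-! ### One vertex -/

section One

variable {V : Type} [Fintype V]

/-- the conditional probability that `z` is covered, given that there is no birth near `z` -/
theorem cover_cond (hU : UpperStmt) (hI : IidStmt) (hTL : TlodStmt) {G : SimpleGraph V} {D : ℕ}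
    (hD : Reg G D) (q : PMF V) (m r s : ℕ) (z : V) (hs : s ≤ r)
    (hq : ∀ u ∈ q.support, u ∉ ball G z r) (Q : ℝ≥0∞) (hQ : ∀ u, q u ≤ Q) (m₀ : ℕ)
    (hm₀ : 6 * m₀ * Q * (AA : ℝ≥0∞) ≤ 1) (hm : m ≤ (r - s) * m₀) (t : ℕ)
    (ht : ∀ w, t ≤ ∑ i ∈ Finset.range (s + 1), (ball G w i).card) :
    ex (iid q m) (fun l => pr (runL G l 0) (fun X => 1 ≤ X z)) ≤
      (ball G z (r + 1)).card * (2 / (AA : ℝ≥0∞)) ^ t := by
  have hA1 : (2 : ℝ≥0∞) / AA ≤ 1 := by
    have : (2 : ℝ≥0∞) ≤ AA := by
      have : 2 ≤ AA := by unfold AA; norm_num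
      exact_mod_cast this
    exact ENNReal.div_le_of_le_mul (by rwa [one_mul])
  have hA64 : (2 : ℝ≥0∞) ^ 64 ≤ (AA : ℝ≥0∞) := by
    have h2 : 2 ^ 64 ≤ AA := by unfold AA; norm_num
    have h3 : ((2 ^ 64 : ℕ) : ℝ≥0∞) ≤ (AA : ℝ≥0∞) := Nat.cast_le.2 h2
    rwa [Nat.cast_pow, Nat.cast_ofNat] at h3
  calc ex (iid q m) (fun l => pr (runL G l 0) (fun X => 1 ≤ X z))
      ≤ ex (iid q m) (fun l => pr (runL G l 0) (fun X => ∃ w ∈ ball G z (r + 1), r + 1 ≤ X w)) := by
        refine ex_mono _ fun l hl => pr_mono _ fun X hX h => ?_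
        exact hTL V G z r l (fun u hu => hq u (mem_iid_support hl u hu)) X hX h
    _ = pr (chain G q m 0) (fun X => ∃ w ∈ ball G z (r + 1), r + 1 ≤ X w) := by
        rw [hI.chain_eq]
        simp_rw [pr_eq]
        rw [ex_bind]
    _ ≤ ∑ w ∈ ball G z (r + 1), pr (chain G q m 0) (fun X => r + 1 ≤ X w) :=
        pr_exists_le _ _ _
    _ ≤ ∑ _w ∈ ball G z (r + 1), (2 / (AA : ℝ≥0∞)) ^ t := by
        refine Finset.sum_le_sum fun w _ => ?_
        have h1 := hU V G D hD q Q AA hQ hA64 (ENNReal.natCast_ne_top _) m₀ (r - s) m hm₀ hm s w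
        refine le_trans (pr_mono _ fun X _ h => ?_) (h1.trans ?_)
        · omega
        · exact pow_le_pow_right_of_le_one' hA1 (ht w)
    _ = _ := by rw [Finset.sum_const, nsmul_eq_mul]

/-- the probability that there is no birth near `z` and `z` is covered -/
theorem cover_joint (hI : IidStmt) [Nonempty V] {G : SimpleGraph V} (m r : ℕ) (z : V)
    (hc : (ball G z r)ᶜ.Nonempty) (ε : ℝ≥0∞)
    (h : ex (iid (PMF.uniformOfFinset (ball G z r)ᶜ hc) m)
      (fun l => pr (runL G l 0) (fun X => 1 ≤ X z)) ≤ ε) :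
    pr (joint G (unif V) m) (fun a => (∀ u ∈ a.1, u ∉ ball G z r) ∧ 1 ≤ a.2 z) ≤
      ENNReal.ofReal ((1 - (ball G z r).card / Fintype.card V) ^ m) * ε := by
  rw [pr_eq, ex_joint]
  have h1 := hI.avoid_ex V m (ball G z r) hc (fun l => pr (runL G l 0) (fun X => 1 ≤ X z))
  calc ex (iid (unif V) m) (fun l => ex (runL G l 0) fun X =>
        if (∀ u ∈ (l, X).1, u ∉ ball G z r) ∧ 1 ≤ (l, X).2 z then (1 : ℝ≥0∞) else 0)
      = ex (iid (unif V) m) (fun l => if ∀ u ∈ l, u ∉ ball G z r then
          pr (runL G l 0) (fun X => 1 ≤ X z) else 0) := by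
        refine congrArg _ (funext fun l => ?_)
        by_cases hl : ∀ u ∈ l, u ∉ ball G z r
        · rw [if_pos hl, pr_eq]
          refine congrArg _ (funext fun X => ?_)
          by_cases hX : 1 ≤ X z
          · rw [if_pos hX, if_pos ⟨hl, hX⟩]
          · rw [if_neg hX, if_neg (fun h => hX h.2)]
        · rw [if_neg hl]
          refine le_antisymm (le_trans (ex_mono _ (g := fun _ => 0) fun X _ => ?_)
            (ex_const _ _).le) zero_le
          rw [if_neg (fun h => hl h.1)]
    _ = ENNReal.ofReal ((1 - (ball G z r).card / Fintype.card V) ^ m) *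
        ex (iid (PMF.uniformOfFinset (ball G z r)ᶜ hc) m)
          (fun l => pr (runL G l 0) (fun X => 1 ≤ X z)) := by
        rw [← h1]
    _ ≤ _ := by gcongr

/-- counting: if all vertices are covered, then one of two unlikely events occurs -/
theorem count_bound {α : Type} (P : PMF α) {ι : Type} (Z : Finset ι) (F C : ι → α → Prop)
    (p ε : ℝ≥0∞) (hp : p ≠ ⊤) (hp0 : p ≠ 0) (hZ : Z.Nonempty)
    (h1 : ∀ z ∈ Z, pr P (F z) = p)
    (h2 : ∀ z ∈ Z, ∀ z' ∈ Z, z ≠ z' → pr P (fun a => F z a ∧ F z' a) ≤ p ^ 2)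
    (h3 : ∀ z ∈ Z, pr P (fun a => F z a ∧ C z a) ≤ p * ε) :
    pr P (fun a => ∀ z ∈ Z, C z a) ≤ 4 / (Z.card * p) + 2 * ε := by
  have hc0 : (Z.card : ℝ≥0∞) ≠ 0 := by
    have : Z.card ≠ 0 := (Finset.card_pos.2 hZ).ne'
    exact_mod_cast this
  set μ : ℝ≥0∞ := Z.card * p with hμ
  have hμ0 : μ ≠ 0 := mul_ne_zero hc0 hp0
  have hμt : μ ≠ ⊤ := ENNReal.mul_ne_top (ENNReal.natCast_ne_top _) hp
  have hch := cheb P Z F p hp h1 h2
  rw [← hμ] at hch
  have hE : ex P (fun a => cnt Z (fun z a => F z a ∧ C z a) a) ≤ μ * ε := by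
    unfold cnt
    rw [ex_finset_sum]
    calc _ ≤ ∑ _z ∈ Z, p * ε := Finset.sum_le_sum fun z hz => h3 z hz
      _ = μ * ε := by rw [Finset.sum_const, nsmul_eq_mul, hμ, mul_assoc]
  have hmark := Helper43.LSA.markov P (fun a => 2 * cnt Z (fun z a => F z a ∧ C z a) a) μ
  have hm2 : pr P (fun a => μ ≤ 2 * cnt Z (fun z a => F z a ∧ C z a) a) ≤ 2 * ε := by
    rw [ex_mul_left] at hmark
    have h4 : μ * pr P (fun a => μ ≤ 2 * cnt Z (fun z a => F z a ∧ C z a) a) ≤ μ * (2 * ε) := by
      refine hmark.trans ?_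
      calc 2 * ex P (fun a => cnt Z (fun z a => F z a ∧ C z a) a) ≤ 2 * (μ * ε) := by gcongr
        _ = μ * (2 * ε) := by ring
    exact (ENNReal.mul_le_mul_iff_right hμ0 hμt).1 h4
  have hm1 : pr P (fun a => 2 * cnt Z F a < μ) ≤ 4 / μ := by
    rw [ENNReal.le_div_iff_mul_le (Or.inl hμ0) (Or.inl hμt), mul_comm]
    exact hch
  refine le_trans ?_ (add_le_add hm1 hm2)
  refine le_trans (pr_mono P fun a _ hall => ?_) (pr_or_le P _ _)
  have heq : cnt Z (fun z a => F z a ∧ C z a) a = cnt Z F a := by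
    unfold cnt
    refine Finset.sum_congr rfl fun z hz => ?_
    by_cases hF : F z a
    · rw [if_pos hF, if_pos ⟨hF, hall z hz⟩]
    · rw [if_neg hF, if_neg (fun h => hF h.1)]
  rw [heq]
  exact lt_or_ge _ _

end One

/-! ### The theorem -/

section Main

variable {V : Type} [Fintype V]

theorem tlo_k {n r A m₀ m : ℕ} (hA : 0 < A) (hr : 100 ≤ r) (hm₀ : m₀ = n / (12 * A))
    (hn : 12 * A ≤ n) (hm : (m : ℝ) ≤ 1 / (144 * A) * (r + 1) * n) :
    m ≤ (r - r / 4) * m₀ := by
  have hA' : (0 : ℝ) < A := by exact_mod_cast hA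
  have h1 : 1 ≤ m₀ := by
    rw [hm₀]
    exact (Nat.le_div_iff_mul_le (by positivity)).2 (by omega)
  have h2 : n < 12 * A * (m₀ + 1) := by
    rw [hm₀]
    have := Nat.lt_mul_div_succ n (show 0 < 12 * A by positivity)
    simpa using this
  have h3 : (n : ℝ) ≤ 24 * A * m₀ := by
    have h4 : n ≤ 24 * A * m₀ := by nlinarith
    exact_mod_cast h4
  have h5 : ((r : ℝ) + 1) ≤ 2 * ((r - r / 4 : ℕ) : ℝ) := by
    have h6 : r + 1 ≤ 2 * (r - r / 4) := by omega
    exact_mod_cast h6
  have h7 : (m : ℝ) ≤ ((r - r / 4 : ℕ) : ℝ) * m₀ := by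
    have h8 : (0 : ℝ) ≤ m₀ := Nat.cast_nonneg _
    have h9 : (0 : ℝ) ≤ ((r - r / 4 : ℕ) : ℝ) := Nat.cast_nonneg _
    calc (m : ℝ) ≤ 1 / (144 * A) * (r + 1) * n := hm
      _ ≤ 1 / (144 * A) * (2 * ((r - r / 4 : ℕ) : ℝ)) * (24 * A * m₀) := by gcongr
      _ = 1 / 3 * (((r - r / 4 : ℕ) : ℝ) * m₀) := by field_simp; ring
      _ ≤ ((r - r / 4 : ℕ) : ℝ) * m₀ := by
          have : 0 ≤ ((r - r / 4 : ℕ) : ℝ) * m₀ := by positivity
          linarith
  exact_mod_cast h7

/-- the numerical bound for the conditional probability -/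
theorem tlo_eps {β s : ℕ} (hβ : 1 ≤ β) {c : ℕ} (hc : c ≤ β ^ 8) :
    (c : ℝ≥0∞) * (2 / (AA : ℝ≥0∞)) ^ (s + β) ≤ ENNReal.ofReal ((1 / 2) ^ (s + β)) := by
  have h1 : (2 : ℝ≥0∞) / AA = ENNReal.ofReal ((1 / 2) ^ 79) := by
    have h2 : ENNReal.ofReal ((1 / 2 : ℝ) ^ 79) = ENNReal.ofReal (2 / (AA : ℝ)) := by
      congr 1
      unfold AA
      push_cast
      norm_num
    rw [h2, ENNReal.ofReal_div_of_pos (by exact_mod_cast AA_pos)]
    simp
  rw [h1, ← ENNReal.ofReal_natCast, ← ENNReal.ofReal_pow (by positivity),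
    ← ENNReal.ofReal_mul (by positivity)]
  refine ENNReal.ofReal_le_ofReal ?_
  have h3 : (c : ℝ) ≤ 2 ^ (8 * (s + β)) := by
    have h4 : β ≤ 2 ^ β := Nat.lt_two_pow_self.le
    have h5 : c ≤ 2 ^ (8 * (s + β)) := by
      calc c ≤ β ^ 8 := hc
        _ ≤ (2 ^ β) ^ 8 := Nat.pow_le_pow_left h4 8
        _ = 2 ^ (8 * β) := by rw [← pow_mul, mul_comm]
        _ ≤ 2 ^ (8 * (s + β)) := Nat.pow_le_pow_right (by norm_num) (by omega)
    exact_mod_cast h5
  calc (c : ℝ) * ((1 / 2) ^ 79) ^ (s + β) ≤ 2 ^ (8 * (s + β)) * ((1 / 2) ^ 79) ^ (s + β) := by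
        gcongr
    _ = (2 ^ 8 * (1 / 2) ^ 79) ^ (s + β) := by rw [pow_mul, ← mul_pow]
    _ ≤ (1 / 2) ^ (s + β) := by
        gcongr
        norm_num

theorem tlo_main (hU : UpperStmt) (hI : IidStmt) (hTL : TlodStmt) (hG : GeoStmt) [Nonempty V]
    (G : SimpleGraph V) (hT : VertexTransitive G) (h101 : 101 ≤ R₂ G) (m : ℕ)
    (hm : (m : ℝ) ≤ 1 / (144 * AA) * R₂ G * Fintype.card V) :
    pr (chain G (unif V) m 0) (fun X => ∀ v, 1 ≤ X v) ≤ ENNReal.ofReal (etaT (Fintype.card V)) := by
  set n := Fintype.card V with hn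
  obtain ⟨D, hD⟩ := hG.reg_of_trans V G hT
  obtain ⟨u₀⟩ : Nonempty V := inferInstance
  set r := R₂ G - 1 with hr
  set s := r / 4 with hs
  set b := (ball G u₀ r).card with hb
  set β := (ball G u₀ s).card with hβ
  have hcard : ∀ (v : V) (k : ℕ), (ball G v k).card = (ball G u₀ k).card := fun v k =>
    hG.card_ball_eq V G hT v u₀ k
  have hr100 : 100 ≤ r := by omega
  have hRr : (R₂ G : ℝ) = r + 1 := by
    have : R₂ G = r + 1 := by omega
    exact_mod_cast this
  have hr' : (100 : ℝ) ≤ r := by exact_mod_cast hr100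
  have hlog : (r : ℝ) * b < Real.log n := by
    have h1 : r < sInf {r : ℕ | ∀ u : V, Real.log (Fintype.card V) ≤ r * (ball G u r).card} := by
      change r < R₂ G
      omega
    have h2 := Nat.notMem_of_lt_sInf h1
    simp only [Set.mem_ofPred_eq, not_forall, not_le] at h2
    obtain ⟨u, hu⟩ := h2
    rwa [hcard u r] at hu
  have hb1 : 1 ≤ b := Finset.card_pos.2 ⟨u₀, self_mem_ball G u₀ r⟩
  have hβ1 : 1 ≤ β := Finset.card_pos.2 ⟨u₀, self_mem_ball G u₀ s⟩
  have hb1' : (1 : ℝ) ≤ b := by exact_mod_cast hb1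
  have hlogn : (b : ℝ) ≤ Real.log n := by nlinarith
  have hlogpos : 0 < Real.log n := by linarith
  have hn1 : 1 ≤ n := Fintype.card_pos
  have hnpos : (0 : ℝ) < n := by exact_mod_cast hn1
  have hlogle : Real.log n ≤ n := (Real.log_le_sub_one_of_pos hnpos).trans (by linarith)
  -- n is large
  have hnA : 12 * AA ≤ n := by
    have h1 : (100 : ℝ) < Real.log n := by nlinarith
    have h2 : Real.exp 100 < n := by rwa [Real.lt_log_iff_exp_lt hnpos] at h1
    have h3 : (2 : ℝ) ^ 100 ≤ Real.exp 100 := by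
      have h4 : (2 : ℝ) ≤ Real.exp 1 := by
        have := Real.add_one_le_exp (1 : ℝ)
        linarith
      calc (2 : ℝ) ^ 100 ≤ (Real.exp 1) ^ 100 := by gcongr
        _ = Real.exp 100 := by rw [← Real.exp_nat_mul]; norm_num
    have h5 : ((12 * AA : ℕ) : ℝ) ≤ 2 ^ 100 := by
      unfold AA
      push_cast
      norm_num
    have h6 : ((12 * AA : ℕ) : ℝ) ≤ n := by linarith
    exact_mod_cast h6
  have hrb : r * b ≤ n := by
    have : ((r * b : ℕ) : ℝ) ≤ n := by push_cast; linarith
    exact_mod_cast this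
  have h2b : 2 * b ≤ n := by nlinarith
  -- the set Z
  obtain ⟨Z, hZ1, hZ2⟩ := hG.disjoint_balls V G r (b * b) (by
    intro v
    rw [two_mul]
    refine (hG.card_ball_add V G hT v r r).trans ?_
    rw [hcard])
  -- the probability of no births
  set p : ℝ := (1 - b / n) ^ m with hp
  have hbn : (b : ℝ) / n ≤ 1 / 2 := by
    rw [div_le_iff₀ hnpos]
    have : ((2 * b : ℕ) : ℝ) ≤ n := by exact_mod_cast h2b
    push_cast at this
    linarith
  have hbn0 : (0 : ℝ) ≤ b / n := by positivity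
  have hA' : (0 : ℝ) < AA := by exact_mod_cast AA_pos
  have hA1 : (1 : ℝ) ≤ AA := by exact_mod_cast AA_pos
  rw [hRr] at hm
  have hplow : Real.exp (-(Real.log n / 4)) ≤ p := by
    calc Real.exp (-(Real.log n / 4)) ≤ Real.exp (-(2 * ((b : ℝ) / n)) * m) := by
          apply Real.exp_le_exp.2
          have h1 : 2 * ((b : ℝ) / n) * m ≤ 2 * ((b : ℝ) / n) * (1 / (144 * AA) * (r + 1) * n) := by
            gcongr
          have h2 : 2 * ((b : ℝ) / n) * (1 / (144 * AA) * (r + 1) * n) =
              (b * (r + 1)) / (72 * AA) := by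
            field_simp
            ring
          have h3 : (b : ℝ) * (r + 1) ≤ 2 * Real.log n := by nlinarith
          have h4 : ((b : ℝ) * (r + 1)) / (72 * AA) ≤ Real.log n / 4 := by
            rw [div_le_iff₀ (by positivity)]
            nlinarith
          linarith
      _ = (Real.exp (-(2 * ((b : ℝ) / n)))) ^ m := by
          rw [← Real.exp_nat_mul]; ring_nf
      _ ≤ p := by
          rw [hp]
          gcongr
          exact exp_le_one_sub hbn0 hbn
  have hppos : 0 < p := lt_of_lt_of_le (Real.exp_pos _) hplow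
  set F : V → List V × (V → ℕ) → Prop := fun z a => ∀ u ∈ a.1, u ∉ ball G z r with hF
  set C : V → List V × (V → ℕ) → Prop := fun z a => 1 ≤ a.2 z with hC
  have h1 : ∀ z ∈ Z, pr (joint G (unif V) m) (F z) = ENNReal.ofReal p := by
    intro z _
    rw [hF]
    rw [pr_joint_fst G (unif V) m (fun l => ∀ u ∈ l, u ∉ ball G z r), hI.avoid, hcard z, hp]
  have h2 : ∀ z ∈ Z, ∀ z' ∈ Z, z ≠ z' →
      pr (joint G (unif V) m) (fun a => F z a ∧ F z' a) ≤ ENNReal.ofReal p ^ 2 := by
    intro z hz z' hz' hne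
    have h3 : pr (joint G (unif V) m) (fun a => F z a ∧ F z' a) ≤
        pr (joint G (unif V) m) (fun a => ∀ u ∈ a.1, u ∉ ball G z r ∪ ball G z' r) := by
      refine pr_mono _ fun a _ h u hu hu2 => ?_
      rcases Finset.mem_union.1 hu2 with h4 | h4
      · exact h.1 u hu h4
      · exact h.2 u hu h4
    refine h3.trans ?_
    rw [pr_joint_fst G (unif V) m (fun l => ∀ u ∈ l, u ∉ ball G z r ∪ ball G z' r), hI.avoid,
      Finset.card_union_of_disjoint (hZ1 hz hz' hne), hcard z, hcard z', hp,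
      ← ENNReal.ofReal_pow (by positivity)]
    refine ENNReal.ofReal_le_ofReal ?_
    rw [← pow_mul, mul_comm m 2, pow_mul]
    have h5 : (1 : ℝ) - ((b + b : ℕ) : ℝ) / n = 1 - 2 * (b / n) := by push_cast; ring
    rw [h5]
    refine pow_le_pow_left₀ (by linarith) ?_ m
    nlinarith [sq_nonneg ((b : ℝ) / n)]
  have h3 : ∀ z ∈ Z, pr (joint G (unif V) m) (fun a => F z a ∧ C z a) ≤
      ENNReal.ofReal p * ENNReal.ofReal ((1 / 2) ^ (s + β)) := by
    intro z _
    have hcompl : (ball G z r)ᶜ.card = n - b := by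
      rw [Finset.card_compl, hcard z]
    have hc : (ball G z r)ᶜ.Nonempty := by
      rw [← Finset.card_pos, hcompl]
      omega
    have hx := cover_joint hI m r z hc (ENNReal.ofReal ((1 / 2) ^ (s + β))) (by
      refine (cover_cond hU hI hTL hD (PMF.uniformOfFinset (ball G z r)ᶜ hc) m r s z
        (by omega) ?_ (2 / n) ?_ (n / (12 * AA)) ?_
        (tlo_k AA_pos hr100 rfl hnA hm) (s + β) ?_).trans ?_
      · intro u hu
        rw [PMF.mem_support_uniformOfFinset_iff, Finset.mem_compl] at hu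
        exact hu
      · intro u
        by_cases hu : u ∈ (ball G z r)ᶜ
        · rw [PMF.uniformOfFinset_apply_of_mem _ hu, hcompl]
          rw [ENNReal.inv_le_iff_inv_le, ENNReal.inv_div (Or.inl (ENNReal.natCast_ne_top _))
            (Or.inl (by exact_mod_cast (show n ≠ 0 by omega)))]
          refine ENNReal.div_le_of_le_mul ?_
          have : n ≤ (n - b) * 2 := by omega
          exact_mod_cast this
        · rw [PMF.uniformOfFinset_apply_of_notMem _ hu]
          exact zero_le
      · have h6 : 12 * AA * (n / (12 * AA)) ≤ n := Nat.mul_div_le n (12 * AA)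
        have h7 : ((12 * AA * (n / (12 * AA)) : ℕ) : ℝ≥0∞) ≤ n := Nat.cast_le.2 h6
        calc 6 * ((n / (12 * AA) : ℕ) : ℝ≥0∞) * (2 / n) * AA
            = ((12 * AA * (n / (12 * AA)) : ℕ) : ℝ≥0∞) / n := by
              push_cast
              rw [div_eq_mul_inv, div_eq_mul_inv]
              ring
          _ ≤ 1 := ENNReal.div_le_of_le_mul (by rwa [one_mul])
      · intro w
        rw [Finset.sum_range_succ, hcard w]
        have h8 : s ≤ ∑ i ∈ Finset.range s, (ball G w i).card := by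
          calc s = ∑ _i ∈ Finset.range s, 1 := by simp
            _ ≤ _ := Finset.sum_le_sum fun i _ => Finset.card_pos.2 ⟨w, self_mem_ball G w i⟩
        omega
      · refine tlo_eps hβ1 ?_
        have e2 : (ball G z (s + s)).card ≤ β ^ 2 := by
          refine (hG.card_ball_add V G hT z s s).trans ?_
          rw [hcard z, sq]
        have e4 : (ball G z (s + s + (s + s))).card ≤ β ^ 4 := by
          refine (hG.card_ball_add V G hT z (s + s) (s + s)).trans ?_
          calc _ ≤ β ^ 2 * β ^ 2 := Nat.mul_le_mul e2 e2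
            _ = β ^ 4 := by ring
        have e8 : (ball G z (s + s + (s + s) + (s + s + (s + s)))).card ≤ β ^ 8 := by
          refine (hG.card_ball_add V G hT z (s + s + (s + s)) (s + s + (s + s))).trans ?_
          calc _ ≤ β ^ 4 * β ^ 4 := Nat.mul_le_mul e4 e4
            _ = β ^ 8 := by ring
        exact (Finset.card_le_card (ball_mono' (by omega))).trans e8)
    rw [hcard z] at hx
    exact hx
  have hZn : (n : ℝ) ≤ Z.card * (b * b) := by exact_mod_cast hZ2
  have hZpos : 0 < Z.card := by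
    by_contra h
    have h0 : Z.card = 0 := by omega
    rw [h0] at hZn
    simp at hZn
    linarith
  have hZpos' : (0 : ℝ) < Z.card := by exact_mod_cast hZpos
  have hcount := count_bound (joint G (unif V) m) Z F C (ENNReal.ofReal p)
    (ENNReal.ofReal ((1 / 2) ^ (s + β))) ENNReal.ofReal_ne_top
    (ENNReal.ofReal_pos.2 hppos).ne' (Finset.card_pos.1 hZpos) h1 h2 h3
  calc pr (chain G (unif V) m 0) (fun X => ∀ v, 1 ≤ X v)
      = pr (joint G (unif V) m) (fun a => ∀ v, 1 ≤ a.2 v) :=
        (pr_joint_snd hI G (unif V) m _).symm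
    _ ≤ pr (joint G (unif V) m) (fun a => ∀ z ∈ Z, C z a) :=
        pr_mono _ fun a _ h z _ => h z
    _ ≤ _ := hcount
    _ = ENNReal.ofReal (4 / (Z.card * p) + 2 * (1 / 2) ^ (s + β)) := by
        rw [ENNReal.ofReal_add (by positivity) (by positivity),
          ENNReal.ofReal_div_of_pos (by positivity), ENNReal.ofReal_mul (by positivity),
          ENNReal.ofReal_mul (by norm_num), ENNReal.ofReal_natCast]
        simp
    _ ≤ ENNReal.ofReal (etaT n) := by
        refine ENNReal.ofReal_le_ofReal ?_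
        unfold etaT
        refine add_le_add ?_ ?_
        · rw [div_le_iff₀ (by positivity)]
          have h6 : (n : ℝ) / Real.log n ^ 2 ≤ Z.card := by
            rw [div_le_iff₀ (by positivity)]
            calc (n : ℝ) ≤ Z.card * (b * b) := hZn
              _ ≤ Z.card * Real.log n ^ 2 := by rw [sq]; gcongr
          have h7 : (n : ℝ) / Real.log n ^ 2 * Real.exp (-(Real.log n / 4)) ≤ Z.card * p := by
            gcongr
          have h9 : Real.exp (-(3 / 4 * Real.log n)) * Real.exp (-(Real.log n / 4)) =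
              (n : ℝ)⁻¹ := by
            rw [← Real.exp_add, ← Real.exp_log hnpos, ← Real.exp_neg, Real.log_exp]
            congr 1
            ring
          have h8 : (1 : ℝ) = Real.log n ^ 2 * Real.exp (-(3 / 4 * Real.log n)) *
              ((n : ℝ) / Real.log n ^ 2 * Real.exp (-(Real.log n / 4))) := by
            calc (1 : ℝ) = (n : ℝ) * (n : ℝ)⁻¹ := by field_simp
              _ = n * (Real.exp (-(3 / 4 * Real.log n)) * Real.exp (-(Real.log n / 4))) := by
                  rw [h9]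
              _ = _ := by field_simp
          calc (4 : ℝ) = 4 * (Real.log n ^ 2 * Real.exp (-(3 / 4 * Real.log n)) *
              ((n : ℝ) / Real.log n ^ 2 * Real.exp (-(Real.log n / 4)))) := by rw [← h8]; ring
            _ ≤ 4 * (Real.log n ^ 2 * Real.exp (-(3 / 4 * Real.log n)) * (Z.card * p)) := by
                gcongr
            _ = _ := by ring
        · refine mul_le_mul_of_nonneg_left ?_ (by norm_num)
          have ht : (0 : ℝ) < ((s + β : ℕ) : ℝ) := by
            have : 0 < s + β := by omega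
            exact_mod_cast this
          have h10 : ((1 : ℝ) / 2) ^ (s + β) ≤ (((s + β : ℕ) : ℝ))⁻¹ := by
            rw [one_div, inv_pow]
            apply inv_anti₀ ht
            have : s + β ≤ 2 ^ (s + β) := Nat.lt_two_pow_self.le
            exact_mod_cast this
          refine h10.trans (rpow_bound hlogpos ht ?_)
          -- `log n ≤ R₂ |B_{R₂}| ≤ 8 s β ^ 8`
          have hmem : R₂ G ∈ {r : ℕ | ∀ u : V,
              Real.log (Fintype.card V) ≤ r * (ball G u r).card} := by
            refine Nat.sInf_mem ?_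
            obtain ⟨k, hk⟩ := exists_nat_ge (Real.log (Fintype.card V))
            refine ⟨k, fun u => hk.trans ?_⟩
            have h11 : (1 : ℝ) ≤ (ball G u k).card := by
              exact_mod_cast Finset.card_pos.2 ⟨u, self_mem_ball G u k⟩
            have h12 : (0 : ℝ) ≤ k := Nat.cast_nonneg k
            nlinarith
          have h13 := hmem u₀
          have e2 : (ball G u₀ (s + s)).card ≤ β ^ 2 := by
            refine (hG.card_ball_add V G hT u₀ s s).trans ?_
            rw [sq]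
          have e4 : (ball G u₀ (s + s + (s + s))).card ≤ β ^ 4 := by
            refine (hG.card_ball_add V G hT u₀ (s + s) (s + s)).trans ?_
            calc _ ≤ β ^ 2 * β ^ 2 := Nat.mul_le_mul e2 e2
              _ = β ^ 4 := by ring
          have e8 : (ball G u₀ (s + s + (s + s) + (s + s + (s + s)))).card ≤ β ^ 8 := by
            refine (hG.card_ball_add V G hT u₀ (s + s + (s + s)) (s + s + (s + s))).trans ?_
            calc _ ≤ β ^ 4 * β ^ 4 := Nat.mul_le_mul e4 e4
              _ = β ^ 8 := by ring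
          have h14 : R₂ G * (ball G u₀ (R₂ G)).card ≤ 8 * (s + β) ^ 9 := by
            calc R₂ G * (ball G u₀ (R₂ G)).card ≤ (8 * s) * β ^ 8 := by
                  refine Nat.mul_le_mul (by omega) ?_
                  exact (Finset.card_le_card (ball_mono' (by omega))).trans e8
              _ ≤ (8 * (s + β)) * (s + β) ^ 8 := by gcongr <;> omega
              _ = 8 * (s + β) ^ 9 := by ring
          have h15 : ((R₂ G * (ball G u₀ (R₂ G)).card : ℕ) : ℝ) ≤
              ((8 * (s + β) ^ 9 : ℕ) : ℝ) := Nat.cast_le.2 h14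
          calc Real.log n ≤ R₂ G * (ball G u₀ (R₂ G)).card := h13
            _ = ((R₂ G * (ball G u₀ (R₂ G)).card : ℕ) : ℝ) := by push_cast; ring
            _ ≤ ((8 * (s + β) ^ 9 : ℕ) : ℝ) := h15
            _ = 8 * ((s + β : ℕ) : ℝ) ^ 9 := by push_cast; ring

end Main

theorem tlo (hU : UpperStmt) (hI : IidStmt) (hTL : TlodStmt) (hG : GeoStmt) : TloStmt := by
  have hA' : (0 : ℝ) < AA := by exact_mod_cast AA_pos
  refine ⟨1 / (144 * AA), by positivity, etaT, tendsto_etaT, ?_⟩
  intro V _ _ G hT m hm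
  rcases Nat.lt_or_ge (R₂ G) 101 with h | h
  · rw [chain_cover_small hI G m ?_]
    · exact zero_le
    · have hn1 : 1 ≤ Fintype.card V := Fintype.card_pos
      have hnpos : (0 : ℝ) < Fintype.card V := by exact_mod_cast hn1
      have h1 : (R₂ G : ℝ) < 101 := by exact_mod_cast h
      have hA1 : (1 : ℝ) ≤ AA := by exact_mod_cast AA_pos
      have h2 : (m : ℝ) < Fintype.card V := by
        calc (m : ℝ) ≤ 1 / (144 * AA) * R₂ G * Fintype.card V := hm
          _ < 1 / (144 * AA) * 144 * Fintype.card V := by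
              gcongr
              linarith
          _ = 1 / AA * Fintype.card V := by field_simp
          _ ≤ 1 * Fintype.card V := by
              gcongr
              rw [div_le_one hA']
              exact hA1
          _ = Fintype.card V := one_mul _
      exact_mod_cast h2
  · exact tlo_main hU hI hTL hG G hT h m hm

end

end Helper72.LSA
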