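import Pool.Agent.Helper72_LSA.Xlod

/-!
# Module XLO: the lower bound for the maximum load
-/

namespace Helper72.LSA

open Helper43.LSA
open Classical
open scoped ENNReal

noncomputable section

theorem pr_eq {α : Type} (P : PMF α) (S : α → Prop) [∀ a, Decidable (S a)] :
    pr P S = ex P fun a => if S a then 1 else 0 := by
  unfold pr
  refine congrArg _ (funext fun a => ?_)
  by_cases h : S a <;> simp [h]

/-! ### Second moments -/

theorem cheb_pointwise (N μ : ℝ≥0∞) (hN : N ≠ ⊤) (hμ : μ ≠ ⊤) :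
    μ ^ 2 * (if 2 * N < μ then 1 else 0) + 8 * (μ * N) ≤ 4 * N ^ 2 + 4 * μ ^ 2 := by
  lift N to NNReal using hN
  lift μ to NNReal using hμ
  split_ifs with h
  · have h' : 2 * (N : ℝ) < μ := by exact_mod_cast h
    have : (μ : ℝ) ^ 2 * 1 + 8 * (μ * N) ≤ 4 * (N : ℝ) ^ 2 + 4 * μ ^ 2 := by
      have h0 : (0 : ℝ) ≤ N := N.coe_nonneg
      have h1 : (0 : ℝ) ≤ μ := μ.coe_nonneg
      nlinarith
    exact_mod_cast this
  · have : (μ : ℝ) ^ 2 * 0 + 8 * (μ * N) ≤ 4 * (N : ℝ) ^ 2 + 4 * μ ^ 2 := by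
      have h0 : (0 : ℝ) ≤ N := N.coe_nonneg
      have h1 : (0 : ℝ) ≤ μ := μ.coe_nonneg
      nlinarith [sq_nonneg ((μ : ℝ) - N)]
    exact_mod_cast this

/-- the number of events which occur -/
def cnt {α ι : Type} (Z : Finset ι) (S : ι → α → Prop) (a : α) : ℝ≥0∞ :=
  ∑ z ∈ Z, if S z a then 1 else 0

theorem cheb {α ι : Type} (P : PMF α) (Z : Finset ι) (S : ι → α → Prop) (p : ℝ≥0∞) (hp : p ≠ ⊤)
    (h1 : ∀ z ∈ Z, pr P (S z) = p)
    (h2 : ∀ z ∈ Z, ∀ z' ∈ Z, z ≠ z' → pr P (fun a => S z a ∧ S z' a) ≤ p ^ 2) :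
    (Z.card * p) * pr P (fun a => 2 * cnt Z S a < Z.card * p) ≤ 4 := by
  unfold cnt
  set μ : ℝ≥0∞ := Z.card * p with hμdef
  have hμ : μ ≠ ⊤ := ENNReal.mul_ne_top (ENNReal.natCast_ne_top _) hp
  rcases eq_or_ne μ 0 with h0 | h0
  · rw [h0, zero_mul]; exact zero_le
  set N : α → ℝ≥0∞ := fun a => ∑ z ∈ Z, (if S z a then (1 : ℝ≥0∞) else 0) with hN
  have hNtop : ∀ a, N a ≠ ⊤ := by
    intro a
    refine ENNReal.sum_ne_top.2 fun z _ => ?_
    split <;> simp
  have hEN : ex P N = μ := by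
    rw [hN, ex_finset_sum]
    simp_rw [← pr_eq]
    rw [Finset.sum_congr rfl fun z hz => h1 z hz]
    simp [hμdef]
  have hEN2 : ex P (fun a => N a ^ 2) ≤ μ + μ ^ 2 := by
    have e : ∀ a, N a ^ 2 = ∑ z ∈ Z, ∑ z' ∈ Z, (if S z a ∧ S z' a then (1 : ℝ≥0∞) else 0) := by
      intro a
      rw [hN, sq, Finset.sum_mul_sum]
      refine Finset.sum_congr rfl fun z _ => Finset.sum_congr rfl fun z' _ => ?_
      by_cases h1 : S z a <;> by_cases h2 : S z' a <;> simp [h1, h2]
    simp_rw [e]
    rw [ex_finset_sum]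
    simp_rw [ex_finset_sum]
    calc ∑ z ∈ Z, ∑ z' ∈ Z, ex P (fun a => if S z a ∧ S z' a then (1 : ℝ≥0∞) else 0)
        ≤ ∑ z ∈ Z, ∑ z' ∈ Z, ((if z = z' then p else 0) + p ^ 2) := by
          refine Finset.sum_le_sum fun z hz => Finset.sum_le_sum fun z' hz' => ?_
          by_cases h : z = z'
          · subst h
            rw [if_pos rfl]
            refine le_trans ?_ le_self_add
            rw [← h1 z hz]
            unfold pr
            simp
          · rw [if_neg h, zero_add, ← pr_eq]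
            exact h2 z hz z' hz' h
      _ = μ + μ ^ 2 := by
          simp_rw [Finset.sum_add_distrib]
          rw [hμdef]
          congr 1
          · simp
          · simp [Finset.sum_const]
            ring
  have key : μ ^ 2 * pr P (fun a => 2 * N a < μ) + 8 * (μ * μ) ≤ 4 * (μ + μ ^ 2) + 4 * μ ^ 2 := by
    have h3 : ex P (fun a => μ ^ 2 * (if 2 * N a < μ then 1 else 0) + 8 * (μ * N a)) ≤
        ex P (fun a => 4 * N a ^ 2 + 4 * μ ^ 2) :=
      ex_mono P fun a _ => cheb_pointwise (N a) μ (hNtop a) hμ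
    rw [ex_add, ex_add, ex_mul_left, ex_mul_left, ex_mul_left, ex_const, ex_mul_left, hEN,
      ← pr_eq] at h3
    refine le_trans h3 ?_
    gcongr
  have key2 : μ ^ 2 * pr P (fun a => 2 * N a < μ) + 8 * μ ^ 2 ≤ 4 * μ + 8 * μ ^ 2 := by
    calc μ ^ 2 * pr P (fun a => 2 * N a < μ) + 8 * μ ^ 2
        = μ ^ 2 * pr P (fun a => 2 * N a < μ) + 8 * (μ * μ) := by rw [sq μ]
      _ ≤ 4 * (μ + μ ^ 2) + 4 * μ ^ 2 := key
      _ = 4 * μ + 8 * μ ^ 2 := by ring
  have hfin : 8 * μ ^ 2 ≠ ⊤ := ENNReal.mul_ne_top (by simp) (ENNReal.pow_ne_top hμ)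
  have key3 : μ * (μ * pr P (fun a => 2 * N a < μ)) ≤ μ * 4 := by
    have := (ENNReal.add_le_add_iff_right hfin).1 key2
    calc μ * (μ * pr P (fun a => 2 * N a < μ)) = μ ^ 2 * pr P (fun a => 2 * N a < μ) := by ring
      _ ≤ 4 * μ := this
      _ = μ * 4 := mul_comm _ _
  exact (ENNReal.mul_le_mul_iff_right h0 hμ).1 key3

/-! ### Phases -/

section Phases

variable {V : Type} [Fintype V]

/-- `L` independent lists of `M` births -/
def phL (q : PMF V) (M : ℕ) : ℕ → PMF (ℕ → List V)
  | 0 => PMF.pure fun _ => []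
  | L + 1 => (phL q M L).bind fun ls => (iid q M).map fun b => Function.update ls L b

omit [Fintype V] in
theorem flatMap_update (ls : ℕ → List V) (L : ℕ) (b : List V) :
    (List.range (L + 1)).flatMap (Function.update ls L b) = (List.range L).flatMap ls ++ b := by
  rw [List.range_succ, List.flatMap_append]
  simp only [List.flatMap_cons, List.flatMap_nil, List.append_nil, Function.update_self]
  congr 1
  rw [List.flatMap_def, List.flatMap_def]
  congr 1
  refine List.map_congr_left fun i hi => ?_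
  rw [List.mem_range] at hi
  rw [Function.update_of_ne (by omega)]

theorem iid_phases (hI : IidStmt) (q : PMF V) (M L : ℕ) :
    iid q (L * M) = (phL q M L).map fun ls => (List.range L).flatMap ls := by
  induction L with
  | zero => simp [phL, iid, PMF.pure_map]
  | succ L ih =>
    rw [Nat.succ_mul, hI.iid_add, ih]
    simp only [phL, PMF.map, PMF.bind_bind, PMF.pure_bind, Function.comp_def]
    congr 1
    funext ls
    congr 1
    funext b
    rw [flatMap_update]

theorem ex_phases_prod (q : PMF V) (M L : ℕ) (f : ℕ → List V → ℝ≥0∞) :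
    ex (phL q M L) (fun ls => ∏ i ∈ Finset.range L, f i (ls i)) =
      ∏ i ∈ Finset.range L, ex (iid q M) (f i) := by
  induction L with
  | zero => simp [phL, ex_pure]
  | succ L ih =>
    simp only [phL]
    rw [ex_bind, Finset.prod_range_succ, ← ih, ← ex_mul_right]
    refine congrArg _ (funext fun ls => ?_)
    rw [ex_map, ← ex_mul_left]
    refine congrArg _ (funext fun b => ?_)
    rw [Finset.prod_range_succ, Function.update_self]
    congr 1
    refine Finset.prod_congr rfl fun i hi => ?_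
    rw [Finset.mem_range] at hi
    rw [Function.update_of_ne (by omega)]

theorem pr_phases (q : PMF V) (M L : ℕ) (S : ℕ → Finset V) :
    pr (phL q M L) (fun ls => ∀ i < L, ∀ u ∈ S i, u ∈ ls i) =
      ∏ i ∈ Finset.range L, pr (iid q M) (fun l => ∀ u ∈ S i, u ∈ l) := by
  have := ex_phases_prod q M L (fun i l => if ∀ u ∈ S i, u ∈ l then (1 : ℝ≥0∞) else 0)
  simp_rw [pr_eq]
  rw [← this]
  refine congrArg _ (funext fun ls => ?_)
  rw [Finset.prod_boole]
  simp only [Finset.mem_range]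

end Phases


/-! ### Numbers -/

theorem one_le_log_of_three_le {x : ℝ} (hx : 3 ≤ x) : 1 ≤ Real.log x := by
  rw [Real.le_log_iff_exp_le (by linarith)]
  have := Real.exp_one_lt_d9
  linarith

theorem exp_two_le : 4 * Real.exp 2 ≤ 30 := by
  have h : Real.exp 2 = Real.exp 1 * Real.exp 1 := by rw [← Real.exp_add]; norm_num
  have h1 := Real.exp_one_lt_d9
  have h2 := Real.exp_pos 1
  rw [h]
  nlinarith

theorem xlo_num {n r L b bL : ℕ} (hr : 30 ≤ r) (hL : 1 ≤ L) (hrL : 31 * L ≤ r + 1)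
    (hbL : bL ≤ b) (hlog : (r : ℝ) * b * Real.log r < Real.log n) :
    (r : ℝ) * b ≤ Real.log n ∧
      (L : ℝ) * bL * Real.log (4 * Real.exp 2 * L) ≤ Real.log n / 4 := by
  have hr' : (30 : ℝ) ≤ r := by exact_mod_cast hr
  have hL' : (1 : ℝ) ≤ L := by exact_mod_cast hL
  have hb' : (0 : ℝ) ≤ b := Nat.cast_nonneg b
  have hbL' : (bL : ℝ) ≤ b := by exact_mod_cast hbL
  have hrL' : (31 : ℝ) * L ≤ r + 1 := by exact_mod_cast hrL
  have hlr : 1 ≤ Real.log r := one_le_log_of_three_le (by linarith)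
  have h1 : (r : ℝ) * b ≤ Real.log n := by
    have : (0 : ℝ) ≤ r * b := by positivity
    nlinarith
  refine ⟨h1, ?_⟩
  have h2 : 30 * (L : ℝ) ≤ r := by linarith
  have h3 : Real.log (4 * Real.exp 2 * L) ≤ Real.log r := by
    apply Real.log_le_log (by positivity)
    calc 4 * Real.exp 2 * L ≤ 30 * L := by gcongr; exact exp_two_le
      _ ≤ r := h2
  have h4 : (L : ℝ) * bL ≤ r * b / 4 := by
    have : (L : ℝ) * bL ≤ L * b := by gcongr
    nlinarith
  have h5 : 0 ≤ Real.log r := by linarith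
  calc (L : ℝ) * bL * Real.log (4 * Real.exp 2 * L) ≤ L * bL * Real.log r := by gcongr
    _ ≤ (r * b / 4) * Real.log r := by gcongr
    _ = (r * b * Real.log r) / 4 := by ring
    _ ≤ Real.log n / 4 := by linarith

/-- the lower bound for the probability that a vertex is good -/
theorem prod_hitP_lower (hH : HitpStmt) {n L bL : ℕ} (s : ℕ → ℕ) (hL : 1 ≤ L) (hLn : L ≤ n)
    (hs : ∀ i < L, s i ≤ bL) (hn : 2 * L * bL ≤ n)
    (hlog : (L : ℝ) * bL * Real.log (4 * Real.exp 2 * L) ≤ Real.log n / 4) :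
    Real.exp (-(Real.log n / 4)) ≤ ∏ i ∈ Finset.range L, hitP n (n / L) (s i) := by
  set x : ℝ := 1 / (4 * Real.exp 2 * L) with hx
  have hL' : (1 : ℝ) ≤ L := by exact_mod_cast hL
  have hx0 : 0 < x := by rw [hx]; positivity
  have hx1 : x ≤ 1 := by
    rw [hx, div_le_one (by positivity)]
    have : (1 : ℝ) ≤ Real.exp 2 := Real.one_le_exp (by norm_num)
    nlinarith
  have hM1 : 1 ≤ n / L := (Nat.le_div_iff_mul_le (by omega)).2 (by omega)
  have hM : n ≤ 2 * L * (n / L) := by
    have h1 : n < L * (n / L + 1) := by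
      have := Nat.lt_mul_div_succ n (show 0 < L by omega)
      simpa using this
    have h2 : L ≤ L * (n / L) := Nat.le_mul_of_pos_right L hM1
    have h3 : L * (n / L + 1) = L * (n / L) + L := by ring
    have h4 : 2 * L * (n / L) = L * (n / L) + L * (n / L) := by ring
    omega
  have h1 : ∀ i ∈ Finset.range L, x ^ bL ≤ hitP n (n / L) (s i) := by
    intro i hi
    rw [Finset.mem_range] at hi
    have h2 : 2 * s i ≤ n / L := by
      rw [Nat.le_div_iff_mul_le (by omega)]
      calc 2 * s i * L ≤ 2 * bL * L := by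
            have := hs i hi
            gcongr
        _ = 2 * L * bL := by ring
        _ ≤ n := hn
    refine le_trans ?_ (hH.lower n (n / L) (s i) L (by omega) hL hM h2 (Nat.div_le_self n L))
    exact pow_le_pow_of_le_one hx0.le hx1 (hs i hi)
  calc Real.exp (-(Real.log n / 4)) ≤ Real.exp (-((L : ℝ) * bL * Real.log (4 * Real.exp 2 * L))) := by
        gcongr
    _ = x ^ (L * bL) := by
        rw [hx, one_div, inv_pow, Real.exp_neg]
        congr 1
        rw [← Real.exp_log (show (0 : ℝ) < 4 * Real.exp 2 * L by positivity), ← Real.exp_nat_mul]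
        simp
    _ = ∏ i ∈ Finset.range L, x ^ bL := by
        rw [Finset.prod_const, Finset.card_range, ← pow_mul, mul_comm]
    _ ≤ ∏ i ∈ Finset.range L, hitP n (n / L) (s i) :=
        Finset.prod_le_prod (fun i _ => by positivity) h1

theorem tendsto_eta : Filter.Tendsto
    (fun n : ℕ => 4 * Real.log n * Real.exp (-(3 / 4 * Real.log n))) Filter.atTop (nhds 0) := by
  have h1 : Filter.Tendsto (fun n : ℕ => 3 / 4 * Real.log n) Filter.atTop Filter.atTop :=
    (Real.tendsto_log_atTop.comp tendsto_natCast_atTop_atTop).const_mul_atTop (by norm_num)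
  have h2 := (Real.tendsto_pow_mul_exp_neg_atTop_nhds_zero 1).comp h1
  have h3 := h2.const_mul (16 / 3 : ℝ)
  rw [mul_zero] at h3
  refine h3.congr fun n => ?_
  simp only [Function.comp_apply, pow_one]
  ring

/-! ### The theorem -/

section Main

variable {V : Type} [Fintype V]

theorem chain_exists_pos (hI : IidStmt) [Nonempty V] (G : SimpleGraph V) (m : ℕ) (hm : 1 ≤ m) :
    ∀ X ∈ (chain G (unif V) m 0).support, ∃ v, 1 ≤ X v := by
  intro X hX
  rw [hI.chain_eq, PMF.mem_support_bind_iff] at hX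
  obtain ⟨l, hl, hX⟩ := hX
  have hlen := hI.length V (unif V) m l hl
  cases l with
  | nil => simp at hlen; omega
  | cons u l =>
    refine ⟨u, ?_⟩
    exact phase_lower (i := 0) (List.mem_cons_self) (Nat.zero_le _) (fun _ _ => Nat.zero_le _) hX

theorem xlo_small (hI : IidStmt) [Nonempty V] (G : SimpleGraph V) (h : R₁ G < 31) :
    pr (chain G (unif V) (Fintype.card V) 0) (fun X => ∀ v, (X v : ℝ) < 1 / 62 * R₁ G) = 0 := by
  have h1 : pr (chain G (unif V) (Fintype.card V) 0) (fun X => ∀ v, (X v : ℝ) < 1 / 62 * R₁ G) ≤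
      ex (chain G (unif V) (Fintype.card V) 0) (fun _ => 0) := by
    unfold pr
    refine ex_mono _ fun X hX => ?_
    rw [if_neg]
    intro hall
    obtain ⟨v, hv⟩ := chain_exists_pos hI G _ Fintype.card_pos X hX
    have h2 := hall v
    have h3 : (R₁ G : ℝ) < 31 := by exact_mod_cast h
    have h4 : (1 : ℝ) ≤ X v := by exact_mod_cast hv
    linarith
  rw [ex_const] at h1
  exact le_antisymm h1 zero_le

/-- reduction of a bad event to the phases -/
theorem pr_chain_le_phases (hI : IidStmt) (G : SimpleGraph V) (q : PMF V) (L M m : ℕ)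
    (hm : L * M ≤ m) (B : (V → ℕ) → Prop) (E : (ℕ → List V) → Prop)
    (hE : ∀ ls, E ls → ∀ X, (∃ Y ∈ (runL G ((List.range L).flatMap ls) 0).support, Y ≤ X) → ¬ B X) :
    pr (chain G q m 0) B ≤ pr (phL q M L) (fun ls => ¬ E ls) := by
  obtain ⟨d, rfl⟩ := Nat.exists_eq_add_of_le hm
  rw [hI.chain_eq, hI.iid_add, iid_phases hI]
  unfold pr
  rw [ex_bind, ex_bind, ex_map]
  refine ex_mono _ fun ls _ => ?_
  by_cases hls : E ls
  · rw [if_neg (not_not.2 hls)]
    rw [ex_map]
    calc ex (iid q d) (fun b => ex (runL G ((List.range L).flatMap ls ++ b) 0)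
            (fun X => if B X then 1 else 0))
        ≤ ex (iid q d) (fun _ => 0) := by
          refine ex_mono _ fun b _ => ?_
          refine le_trans (ex_mono _ (g := fun _ => 0) fun X hX => ?_) (ex_const _ _).le
          rw [mem_support_runL_append] at hX
          obtain ⟨Y, hY, hX⟩ := hX
          rw [if_neg (hE ls hls X ⟨Y, hY, le_of_runL hX⟩)]
      _ ≤ 0 := (ex_const _ _).le
  · rw [if_pos hls]
    rw [ex_map]
    calc ex (iid q d) (fun b => ex (runL G ((List.range L).flatMap ls ++ b) 0)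
            (fun X => if B X then 1 else 0))
        ≤ ex (iid q d) (fun _ => 1) := by
          refine ex_mono _ fun b _ => ?_
          exact pr_le_one _ _
      _ ≤ 1 := (ex_const _ _).le

theorem pr_ball_phases (hI : IidStmt) [Nonempty V] (M L : ℕ) (S : ℕ → Finset V) :
    pr (phL (unif V) M L) (fun ls => ∀ i < L, ∀ u ∈ S i, u ∈ ls i) =
      ∏ i ∈ Finset.range L, ENNReal.ofReal (hitP (Fintype.card V) M (S i).card) := by
  rw [pr_phases]
  exact Finset.prod_congr rfl fun i _ => hI.hit V M (S i)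

theorem xlo_main (hI : IidStmt) (hH : HitpStmt) (hX : XlodStmt) (hG : GeoStmt) [Nonempty V]
    (G : SimpleGraph V) (hT : VertexTransitive G) (h31 : 31 ≤ R₁ G) :
    pr (chain G (unif V) (Fintype.card V) 0) (fun X => ∀ v, (X v : ℝ) < 1 / 62 * R₁ G) ≤
      ENNReal.ofReal (4 * Real.log (Fintype.card V) *
        Real.exp (-(3 / 4 * Real.log (Fintype.card V)))) := by
  set n := Fintype.card V with hn
  obtain ⟨u₀⟩ : Nonempty V := inferInstance
  set r := R₁ G - 1 with hr
  set L := R₁ G / 31 with hL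
  set M := n / L with hM
  set b := (ball G u₀ r).card with hb
  set bL := (ball G u₀ L).card with hbL
  have hcard : ∀ (v : V) (k : ℕ), (ball G v k).card = (ball G u₀ k).card := fun v k =>
    hG.card_ball_eq V G hT v u₀ k
  have hL1 : 1 ≤ L := by omega
  have hr30 : 30 ≤ r := by omega
  have hrL : 31 * L ≤ r + 1 := by omega
  have hR : (R₁ G : ℝ) < 62 * L := by
    have : R₁ G < 62 * L := by omega
    exact_mod_cast this
  have hlog : (r : ℝ) * b * Real.log r < Real.log n := by
    have h1 : r < sInf {r : ℕ | ∀ u : V,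
        Real.log (Fintype.card V) ≤ r * (ball G u r).card * Real.log r} := by
      change r < R₁ G
      omega
    have h2 := Nat.notMem_of_lt_sInf h1
    simp only [Set.mem_ofPred_eq, not_forall, not_le] at h2
    obtain ⟨u, hu⟩ := h2
    rwa [hcard u r] at hu
  have hb1 : 1 ≤ b := Finset.card_pos.2 ⟨u₀, self_mem_ball G u₀ r⟩
  have hbLb : bL ≤ b := Finset.card_le_card (ball_mono' (by omega))
  obtain ⟨hA, hB⟩ := xlo_num hr30 hL1 hrL hbLb hlog
  have hb1' : (1 : ℝ) ≤ b := by exact_mod_cast hb1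
  have hr' : (30 : ℝ) ≤ r := by exact_mod_cast hr30
  have hlogn : (b : ℝ) ≤ Real.log n := by nlinarith
  have hnpos : (0 : ℝ) < n := by
    have : 0 < n := Fintype.card_pos
    exact_mod_cast this
  have hlogle : Real.log n ≤ n := (Real.log_le_sub_one_of_pos hnpos).trans (by linarith)
  have hrb : r * b ≤ n := by
    have : ((r * b : ℕ) : ℝ) ≤ n := by push_cast; linarith
    exact_mod_cast this
  have hLn : L ≤ n := by nlinarith
  have h2Lb : 2 * L * bL ≤ n := by
    calc 2 * L * bL ≤ r * b := Nat.mul_le_mul (by omega) hbLb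
      _ ≤ n := hrb
  have hlogpos : 0 < Real.log n := by linarith
  -- the set Z
  obtain ⟨Z, hZ1, hZ2⟩ := hG.disjoint_balls V G L b (by
    intro v
    rw [hcard v]
    exact Finset.card_le_card (ball_mono' (by omega)))
  -- the events
  set s : ℕ → ℕ := fun i => (ball G u₀ (L - 1 - i)).card with hs
  have hsle : ∀ i < L, s i ≤ bL := fun i _ => Finset.card_le_card (ball_mono' (by omega))
  set E : V → (ℕ → List V) → Prop := fun z ls => ∀ i < L, ∀ u ∈ ball G z (L - 1 - i), u ∈ ls i
    with hE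
  have hn1 : 1 ≤ n := Fintype.card_pos
  have h2s : ∀ i < L, s i + s i ≤ n := by
    intro i hi
    have h1 := hsle i hi
    have h2 : 2 * bL ≤ 2 * L * bL := by nlinarith
    omega
  set π : ℝ := ∏ i ∈ Finset.range L, hitP n M (s i) with hπ
  have hnn : ∀ i ∈ Finset.range L, 0 ≤ hitP n M (s i) := fun i hi =>
    hH.nonneg n M (s i) (by have := h2s i (Finset.mem_range.1 hi); omega)
  have hE1 : ∀ z ∈ Z, pr (phL (unif V) M L) (E z) = ENNReal.ofReal π := by
    intro z _
    rw [hE, pr_ball_phases hI, hπ, ENNReal.ofReal_prod_of_nonneg hnn]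
    refine Finset.prod_congr rfl fun i _ => ?_
    rw [hcard]
  have hE2 : ∀ z ∈ Z, ∀ z' ∈ Z, z ≠ z' →
      pr (phL (unif V) M L) (fun ls => E z ls ∧ E z' ls) ≤ ENNReal.ofReal π ^ 2 := by
    intro z hz z' hz' hne
    have hdisj : ∀ i, Disjoint (ball G z (L - 1 - i)) (ball G z' (L - 1 - i)) := by
      intro i
      have h1 := hZ1 hz hz' hne
      exact Finset.disjoint_of_subset_left (ball_mono' (by omega))
        (Finset.disjoint_of_subset_right (ball_mono' (by omega)) h1)
    have h3 : pr (phL (unif V) M L) (fun ls => E z ls ∧ E z' ls) ≤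
        pr (phL (unif V) M L) (fun ls => ∀ i < L,
          ∀ u ∈ ball G z (L - 1 - i) ∪ ball G z' (L - 1 - i), u ∈ ls i) := by
      refine pr_mono _ fun ls _ h i hi u hu => ?_
      rcases Finset.mem_union.1 hu with h4 | h4
      · exact h.1 i hi u h4
      · exact h.2 i hi u h4
    refine h3.trans ?_
    rw [pr_ball_phases hI, sq, hπ, ENNReal.ofReal_prod_of_nonneg hnn, ← Finset.prod_mul_distrib]
    refine Finset.prod_le_prod' fun i hi => ?_
    rw [Finset.mem_range] at hi
    rw [Finset.card_union_of_disjoint (hdisj i), hcard z, hcard z',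
      ← ENNReal.ofReal_mul (hnn i (Finset.mem_range.2 hi))]
    exact ENNReal.ofReal_le_ofReal (hH.neg_corr n M (s i) (s i) (h2s i hi))
  -- Chebyshev
  have hcheb := cheb (phL (unif V) M L) Z E (ENNReal.ofReal π) ENNReal.ofReal_ne_top hE1 hE2
  have hπlow : Real.exp (-(Real.log n / 4)) ≤ π :=
    prod_hitP_lower hH s hL1 hLn hsle h2Lb hB
  have hπpos : 0 < π := lt_of_lt_of_le (Real.exp_pos _) hπlow
  have hZn : (n : ℝ) ≤ Z.card * b := by exact_mod_cast hZ2
  have hZpos : (0 : ℝ) < Z.card := by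
    by_contra h
    have h0 : (Z.card : ℝ) = 0 := le_antisymm (not_lt.1 h) (Nat.cast_nonneg _)
    rw [h0] at hZn
    linarith
  have hμ : (Z.card : ℝ≥0∞) * ENNReal.ofReal π = ENNReal.ofReal (Z.card * π) := by
    rw [ENNReal.ofReal_mul (Nat.cast_nonneg _), ENNReal.ofReal_natCast]
  have hbad : pr (chain G (unif V) n 0) (fun X => ∀ v, (X v : ℝ) < 1 / 62 * R₁ G) ≤
      pr (phL (unif V) M L) (fun ls => 2 * cnt Z E ls < Z.card * ENNReal.ofReal π) := by
    refine (pr_chain_le_phases hI G (unif V) L M n (Nat.mul_div_le n L) _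
      (fun ls => ∃ z ∈ Z, E z ls) ?_).trans ?_
    · rintro ls ⟨z, _, hz⟩ X ⟨Y, hY, hYX⟩ hall
      have h1 : L ≤ Y z := hX V G z L ls hz Y hY
      have h2 : L ≤ X z := h1.trans (hYX z)
      have h3 : (L : ℝ) ≤ X z := by exact_mod_cast h2
      have h4 := hall z
      linarith
    · refine pr_mono _ fun ls _ h => ?_
      have h0 : cnt Z E ls = 0 := by
        unfold cnt
        refine Finset.sum_eq_zero fun z hz => ?_
        rw [if_neg]
        intro hz2
        exact h ⟨z, hz, hz2⟩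
      rw [h0, mul_zero, hμ]
      exact ENNReal.ofReal_pos.2 (mul_pos hZpos hπpos)
  refine hbad.trans ?_
  rw [hμ] at hcheb ⊢
  have hμpos : 0 < (Z.card : ℝ) * π := mul_pos hZpos hπpos
  have h5 : pr (phL (unif V) M L) (fun ls => 2 * cnt Z E ls <
        ENNReal.ofReal (Z.card * π)) ≤ 4 / ENNReal.ofReal (Z.card * π) := by
    rw [ENNReal.le_div_iff_mul_le (Or.inl (ENNReal.ofReal_pos.2 hμpos).ne')
      (Or.inl ENNReal.ofReal_ne_top), mul_comm]
    exact hcheb
  refine h5.trans ?_
  rw [show (4 : ℝ≥0∞) = ENNReal.ofReal 4 by simp, ← ENNReal.ofReal_div_of_pos hμpos]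
  refine ENNReal.ofReal_le_ofReal ?_
  rw [div_le_iff₀ hμpos]
  have h6 : (n : ℝ) / Real.log n ≤ Z.card := by
    rw [div_le_iff₀ hlogpos]
    calc (n : ℝ) ≤ Z.card * b := hZn
      _ ≤ Z.card * Real.log n := by gcongr
  have h7 : (n : ℝ) / Real.log n * Real.exp (-(Real.log n / 4)) ≤ Z.card * π := by gcongr
  have h8 : (1 : ℝ) = Real.log n * Real.exp (-(3 / 4 * Real.log n)) *
      ((n : ℝ) / Real.log n * Real.exp (-(Real.log n / 4))) := by
    have h9 : Real.exp (-(3 / 4 * Real.log n)) * Real.exp (-(Real.log n / 4)) = (n : ℝ)⁻¹ := by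
      rw [← Real.exp_add, ← Real.exp_log hnpos, ← Real.exp_neg, Real.log_exp]
      congr 1
      ring
    calc (1 : ℝ) = (n : ℝ) * (n : ℝ)⁻¹ := by field_simp
      _ = n * (Real.exp (-(3 / 4 * Real.log n)) * Real.exp (-(Real.log n / 4))) := by rw [h9]
      _ = _ := by field_simp
  calc (4 : ℝ) = 4 * (Real.log n * Real.exp (-(3 / 4 * Real.log n)) *
      ((n : ℝ) / Real.log n * Real.exp (-(Real.log n / 4)))) := by rw [← h8]; ring
    _ ≤ 4 * (Real.log n * Real.exp (-(3 / 4 * Real.log n)) * (Z.card * π)) := by gcongr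
    _ = _ := by ring

end Main

theorem xlo (hI : IidStmt) (hH : HitpStmt) (hX : XlodStmt) (hG : GeoStmt) : XloStmt := by
  refine ⟨1 / 62, by norm_num, _, tendsto_eta, ?_⟩
  intro V _ _ G hT
  rcases Nat.lt_or_ge (R₁ G) 31 with h | h
  · rw [xlo_small hI G h]; exact zero_le
  · exact xlo_main hI hH hX hG G hT h

end

end Helper72.LSA
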