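import Pool.Agent.Helper43_LSA.Stmts

/-!
# Modules XLOD and TLOD: deterministic properties of the runs
-/

namespace Helper72.LSA

open Helper43.LSA

noncomputable section

variable {V : Type} [Fintype V]

theorem mem_support_runL_nil {G : SimpleGraph V} {X X' : V → ℕ} :
    X' ∈ (runL G [] X).support ↔ X' = X := by
  simp [runL]

theorem mem_support_runL_cons {G : SimpleGraph V} {u : V} {l : List V} {X X' : V → ℕ} :
    X' ∈ (runL G (u :: l) X).support ↔
      ∃ w ∈ (walk G X u).support, X' ∈ (runL G l (bump X w)).support := by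
  simp only [runL, PMF.mem_support_bind_iff]

theorem le_of_runL {G : SimpleGraph V} {l : List V} : ∀ {X X' : V → ℕ},
    X' ∈ (runL G l X).support → X ≤ X' := by
  induction l with
  | nil => intro X X' h; rw [mem_support_runL_nil] at h; rw [h]
  | cons u l ih =>
    intro X X' h
    obtain ⟨w, _, h2⟩ := mem_support_runL_cons.1 h
    exact (le_bump X w).trans (ih h2)

theorem runL_append' (G : SimpleGraph V) (l l' : List V) : ∀ X : V → ℕ,
    runL G (l ++ l') X = (runL G l X).bind (runL G l') := by
  induction l with
  | nil => intro X; simp [runL]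
  | cons u l ih =>
    intro X
    simp only [List.cons_append, runL, PMF.bind_bind]
    simp_rw [ih]

theorem mem_support_runL_append {G : SimpleGraph V} {l l' : List V} {X X' : V → ℕ} :
    X' ∈ (runL G (l ++ l') X).support ↔
      ∃ Y ∈ (runL G l X).support, X' ∈ (runL G l' Y).support := by
  rw [runL_append', PMF.mem_support_bind_iff]

/-- one phase: if `u` and all its neighbours have load at least `i` and there is a birth at `u`,
then the load of `u` is at least `i + 1` at the end -/
theorem phase_lower {G : SimpleGraph V} {u : V} {i : ℕ} {l : List V} : ∀ {X X' : V → ℕ},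
    u ∈ l → i ≤ X u → (∀ w, G.Adj u w → i ≤ X w) → X' ∈ (runL G l X).support →
    i + 1 ≤ X' u := by
  induction l with
  | nil => intro X X' h; simp at h
  | cons a l ih =>
    intro X X' hu hX hN h
    obtain ⟨w, hw, h2⟩ := mem_support_runL_cons.1 h
    have hle := le_bump X w
    by_cases hua : u = a
    · subst hua
      rcases Nat.lt_or_ge i (X u) with h3 | h3
      · exact le_trans h3 ((hle u).trans (le_of_runL h2 u))
      · have hXu : X u = i := le_antisymm h3 hX
        have hst : ¬ CanMove G X u := by
          rintro ⟨z, hz, hlt⟩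
          have := hN z hz
          omega
        rw [walk_stay hst] at hw
        simp only [PMF.support_pure, Set.mem_singleton_iff] at hw
        subst hw
        have h4 : bump X w w ≤ X' w := le_of_runL h2 w
        rw [bump_self] at h4
        omega
    · have hu' : u ∈ l := by
        rcases List.mem_cons.1 hu with h5 | h5
        · exact absurd h5 hua
        · exact h5
      exact ih hu' (hX.trans (hle u)) (fun w' hw' => (hN w' hw').trans (hle w')) h2

omit [Fintype V] in
theorem edist_le_succ_of_adj {G : SimpleGraph V} {v u w : V} {r : ℕ} (h : G.edist v u ≤ r)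
    (huw : G.Adj u w) : G.edist v w ≤ (r + 1 : ℕ) := by
  have h1 : G.edist u w = 1 := SimpleGraph.edist_eq_one_iff_adj.2 huw
  calc G.edist v w ≤ G.edist v u + G.edist u w := SimpleGraph.edist_triangle
    _ ≤ r + 1 := by rw [h1]; gcongr
    _ = ((r + 1 : ℕ) : ℕ∞) := by push_cast; rfl

theorem adj_mem_ball {G : SimpleGraph V} {v u w : V} {r : ℕ} (h : u ∈ ball G v r)
    (huw : G.Adj u w) : w ∈ ball G v (r + 1) :=
  mem_ball.2 (edist_le_succ_of_adj (mem_ball.1 h) huw)

theorem ball_mono' {G : SimpleGraph V} {v : V} {r s : ℕ} (h : r ≤ s) :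
    ball G v r ⊆ ball G v s := by
  intro w hw
  rw [mem_ball] at hw ⊢
  exact hw.trans (by exact_mod_cast h)

theorem self_mem_ball (G : SimpleGraph V) (v : V) (r : ℕ) : v ∈ ball G v r := by
  rw [mem_ball]; simp

theorem phases_lower {G : SimpleGraph V} {v : V} {L : ℕ} {ls : ℕ → List V}
    (h : ∀ i < L, ∀ u ∈ ball G v (L - 1 - i), u ∈ ls i) (i : ℕ) (hi : i ≤ L) :
    ∀ X ∈ (runL G ((List.range i).flatMap ls) 0).support, ∀ u ∈ ball G v (L - i), i ≤ X u := by
  induction i with
  | zero => intro X _ u _; exact Nat.zero_le _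
  | succ i ih =>
    intro X hX u hu
    rw [List.range_succ, List.flatMap_append, mem_support_runL_append] at hX
    obtain ⟨Y, hY, hX⟩ := hX
    simp only [List.flatMap_cons, List.flatMap_nil, List.append_nil] at hX
    have hY' := ih (by omega) Y hY
    have hu1 : u ∈ ball G v (L - i) := ball_mono' (by omega) hu
    refine phase_lower (h i (by omega) u (by rwa [show L - 1 - i = L - (i + 1) by omega]))
      (hY' u hu1) ?_ hX
    intro w huw
    refine hY' w ?_
    have := adj_mem_ball hu huw
    rwa [show L - (i + 1) + 1 = L - i by omega] at this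

theorem xlod : XlodStmt := by
  intro V _ G v L ls h X hX
  exact phases_lower h L le_rfl X hX v (self_mem_ball G v _)

/-! ### TLOD -/

/-- the load decreases along the walk of a ball -/
theorem load_add_edist_le {G : SimpleGraph V} {X : V → ℕ} (u : V) : ∀ z ∈ (walk G X u).support,
    (X z : ℕ∞) + G.edist u z ≤ X u := by
  refine walk_induction G X (fun u => ∀ z ∈ (walk G X u).support,
    (X z : ℕ∞) + G.edist u z ≤ X u) ?_ ?_ u
  · intro u h z hz
    rw [walk_stay h] at hz
    simp only [PMF.support_pure, Set.mem_singleton_iff] at hz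
    subst hz
    simp
  · intro u h ih z hz
    obtain ⟨w, hw, hz2⟩ := (support_walk_move h z).1 hz
    have h1 := ih w hw z hz2
    have h2 : X w + 1 ≤ X u := lowNbr_lt h hw
    have h3 : G.edist u w = 1 := SimpleGraph.edist_eq_one_iff_adj.2 (mem_lowNbr.1 hw).1
    calc (X z : ℕ∞) + G.edist u z ≤ X z + (G.edist u w + G.edist w z) := by
          gcongr
          exact SimpleGraph.edist_triangle
      _ = (X z + G.edist w z) + 1 := by rw [h3]; ring
      _ ≤ X w + 1 := by gcongr
      _ ≤ X u := by exact_mod_cast h2

theorem high_of_walk {G : SimpleGraph V} {X : V → ℕ} {v : V} {r : ℕ} (u : V) :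
    u ∉ ball G v r → v ∈ (walk G X u).support → ∃ w ∈ ball G v (r + 1), r + 1 + X v ≤ X w := by
  refine walk_induction G X (fun u => u ∉ ball G v r → v ∈ (walk G X u).support →
    ∃ w ∈ ball G v (r + 1), r + 1 + X v ≤ X w) ?_ ?_ u
  · intro u h hu hv
    rw [walk_stay h] at hv
    simp only [PMF.support_pure, Set.mem_singleton_iff] at hv
    subst hv
    exact absurd (self_mem_ball G v r) hu
  · intro u h ih hu hv
    obtain ⟨w, hw, hv2⟩ := (support_walk_move h v).1 hv
    by_cases hwb : w ∈ ball G v r
    · have hadj : G.Adj w u := (mem_lowNbr.1 hw).1.symm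
      refine ⟨u, adj_mem_ball hwb hadj, ?_⟩
      have h1 := load_add_edist_le u v hv
      have h2 : ((r + 1 : ℕ) : ℕ∞) ≤ G.edist u v := by
        rw [mem_ball, not_le] at hu
        rw [SimpleGraph.edist_comm]
        push_cast
        exact Order.add_one_le_of_lt hu
      have h3 : ((r + 1 + X v : ℕ) : ℕ∞) ≤ X u := by
        calc ((r + 1 + X v : ℕ) : ℕ∞) = X v + ((r + 1 : ℕ) : ℕ∞) := by push_cast; ring
          _ ≤ X v + G.edist u v := by gcongr
          _ ≤ X u := h1
      exact_mod_cast h3
    · exact ih w hw hwb hv2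

theorem tlod_aux {G : SimpleGraph V} {v : V} {r : ℕ} {l : List V} : ∀ {X X' : V → ℕ},
    (∀ u ∈ l, u ∉ ball G v r) → X' ∈ (runL G l X).support → X v < X' v →
    ∃ w ∈ ball G v (r + 1), r + 1 ≤ X' w := by
  induction l with
  | nil =>
    intro X X' _ h hlt
    rw [mem_support_runL_nil] at h
    subst h
    exact absurd hlt (lt_irrefl _)
  | cons u l ih =>
    intro X X' hl h hlt
    obtain ⟨w, hw, h2⟩ := mem_support_runL_cons.1 h
    by_cases hwv : w = v
    · subst hwv
      obtain ⟨z, hz, hz2⟩ := high_of_walk u (hl u (List.mem_cons_self)) hw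
      refine ⟨z, hz, ?_⟩
      have h3 : X z ≤ bump X w z := le_bump X w z
      have h4 : bump X w z ≤ X' z := le_of_runL h2 z
      omega
    · refine ih (fun u hu => hl u (List.mem_cons_of_mem _ hu)) h2 ?_
      rw [bump_of_ne X (Ne.symm hwv)]
      exact hlt

theorem tlod : TlodStmt := by
  intro V _ G v r l hl X hX hv
  refine tlod_aux hl hX ?_
  simp only [Pi.zero_apply]
  omega

end

end Helper72.LSA
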